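import Pool.Agent.N201.BT.B

/-!
# A map at the integer parts of generic multiples decouples from everything else

Let `T` be ANY measure preserving map of a probability space `Ω` (not assumed invertible, ergodic or a time of a flow),
`h` in `L^∞(Ω)` and let `p(n)` be a real polynomial of positive degree with positive leading coefficient, for instance
`p(n) = n`, or a power `n ^ θ`, `θ > 0`. `⌊t⌋` is the integer part of `t` (and `0` for `t < 0`).

1. (Return times.) There is a set of full measure of points `ω`, which depends only on `T`, `h` and `p`, such that for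
   EVERY probability space `(X, μ)` and every uniformly bounded sequence of measurable functions `W_n` on `X`, for almost
   every `a > 0` and `μ`-almost every `x`: `(1/N) ∑ W_n(x) (h (T^⌊a p(n)⌋ ω) - E(h|T)(ω)) → 0`.
2. (One space.) For every uniformly bounded sequence of measurable functions `W_n` on `Ω`, for almost every `a > 0`,
   almost everywhere `(1/N) ∑ W_n(x) (h (T^⌊a p(n)⌋ x) - E(h|T)(x)) → 0`.
3. (Multiple averages.) For all measure preserving maps `S_1, ..., S_k` of `Ω`, with no relation to `T` or to each other,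
   all exponents `e_i(n)` and all `f_i` in `L^∞`, for almost every `a > 0`, almost everywhere the averages of
   `∏ f_i (S_i^(e_i(n)) x) · h (T^⌊a p(n)⌋ x)` are asymptotic to `E(h|T)(x)` times the averages of
   `∏ f_i (S_i^(e_i(n)) x)`; so they converge wherever the latter do.

For `k = 2`, `S_1 = S_2 = T` and `e = (n, 2 n)` the averages of `f(T^n x) g(T^(2n) x)` converge almost everywhere by
Bourgain's theorem. So the averages of `f(T^n x) g(T^(2n) x) h(T^⌊a n⌋ x)` converge almost everywhere for EVERY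
measure preserving map `T`, all bounded `f, g, h` and almost every `a > 0`: the problem is the case `a = 3`.

The starting results on this page and on `MP_f720ae_an`, `MP_4d8f14_an`, `MP_352bb5_an` are about the times `a n` of
flows. The proof is the theorem `bty_all` of the library `Pool.Agent.Y957.MC` (unused so far), with Fubini's theorem.
-/

set_option autoImplicit false

namespace Pool.Agent.Results.MP_9721b5_an.OneGenericFactor

open MeasureTheory Filter Finset

universe u v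

/-- The times: the values of a real polynomial of positive degree with positive leading coefficient, or powers. -/
def IsTime (p : ℕ → ℝ) : Prop :=
  (∃ P : Polynomial ℝ, 0 < P.natDegree ∧ 0 < P.leadingCoeff ∧ ∀ n : ℕ, p n = P.eval (n : ℝ)) ∨
  ∃ θ : ℝ, 0 < θ ∧ ∀ n : ℕ, p n = (n : ℝ) ^ θ

theorem IsTime.good {p : ℕ → ℝ} (hp : IsTime p) : Pool.Agent.Y957.MC.Good p := by
  rcases hp with ⟨P, h1, h2, h3⟩ | ⟨θ, h1, h2⟩
  · rw [funext h3]
    exact Pool.Agent.Y957.MC.good_poly h1 h2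
  · rw [funext h2]
    exact Pool.Agent.Y957.MC.good_pow h1

theorem result :
    (∀ (Ω : Type u) [MeasurableSpace Ω] (μ₀ : Measure Ω) [IsProbabilityMeasure μ₀] (T : Ω → Ω) (h : Ω → ℂ) (p : ℕ → ℝ),
      MeasurePreserving T μ₀ μ₀ → AEStronglyMeasurable h μ₀ → (∃ C : ℝ, ∀ᵐ x ∂μ₀, ‖h x‖ ≤ C) → IsTime p →
      ∀ᵐ ω ∂μ₀, ∀ (X : Type v) [MeasurableSpace X] (μ : Measure X) [IsProbabilityMeasure μ] (W : ℕ → X → ℂ),
        (∀ n, AEStronglyMeasurable (W n) μ) → (∃ C : ℝ, ∀ n, ∀ᵐ x ∂μ, ‖W n x‖ ≤ C) →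
        ∀ᵐ a : ℝ, 0 < a → ∀ᵐ x ∂μ, Tendsto (fun N : ℕ => (1 / (N : ℂ)) * ∑ n ∈ Icc 1 N, W n x *
          (h (T^[⌊a * p n⌋₊] ω) - (μ₀[h | MeasurableSpace.invariants T]) ω)) atTop (nhds 0)) ∧
    (∀ (X : Type u) [MeasurableSpace X] (μ : Measure X) [IsProbabilityMeasure μ] (T : X → X) (h : X → ℂ) (p : ℕ → ℝ)
      (W : ℕ → X → ℂ),
      MeasurePreserving T μ μ → AEStronglyMeasurable h μ → (∃ C : ℝ, ∀ᵐ x ∂μ, ‖h x‖ ≤ C) → IsTime p →
      (∀ n, AEStronglyMeasurable (W n) μ) → (∃ C : ℝ, ∀ n, ∀ᵐ x ∂μ, ‖W n x‖ ≤ C) →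
      ∀ᵐ a : ℝ, 0 < a → ∀ᵐ x ∂μ, Tendsto (fun N : ℕ => (1 / (N : ℂ)) * ∑ n ∈ Icc 1 N, W n x *
        (h (T^[⌊a * p n⌋₊] x) - (μ[h | MeasurableSpace.invariants T]) x)) atTop (nhds 0)) ∧
    (∀ (X : Type u) [MeasurableSpace X] (μ : Measure X) [IsProbabilityMeasure μ] (T : X → X) (h : X → ℂ) (p : ℕ → ℝ)
      (k : ℕ) (S : Fin k → X → X) (e : Fin k → ℕ → ℕ) (f : Fin k → X → ℂ),
      MeasurePreserving T μ μ → AEStronglyMeasurable h μ → (∃ C : ℝ, ∀ᵐ x ∂μ, ‖h x‖ ≤ C) → IsTime p →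
      (∀ i, MeasurePreserving (S i) μ μ) → (∀ i, AEStronglyMeasurable (f i) μ) →
      (∀ i, ∃ C : ℝ, ∀ᵐ x ∂μ, ‖f i x‖ ≤ C) →
      ∀ᵐ a : ℝ, 0 < a → ∀ᵐ x ∂μ,
        Tendsto (fun N : ℕ =>
          (1 / (N : ℂ)) * ∑ n ∈ Icc 1 N, (∏ i, f i ((S i)^[e i n] x)) * h (T^[⌊a * p n⌋₊] x) -
          (μ[h | MeasurableSpace.invariants T]) x *
            ((1 / (N : ℂ)) * ∑ n ∈ Icc 1 N, ∏ i, f i ((S i)^[e i n] x))) atTop (nhds 0) ∧
        ∀ L : ℂ, Tendsto (fun N : ℕ => (1 / (N : ℂ)) * ∑ n ∈ Icc 1 N, ∏ i, f i ((S i)^[e i n] x)) atTop (nhds L) →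
          Tendsto (fun N : ℕ => (1 / (N : ℂ)) * ∑ n ∈ Icc 1 N, (∏ i, f i ((S i)^[e i n] x)) * h (T^[⌊a * p n⌋₊] x))
            atTop (nhds ((μ[h | MeasurableSpace.invariants T]) x * L))) := by
  refine ⟨?_, ?_, ?_⟩
  · intro Ω _ μ₀ _ T h p hT hh hhb hp
    exact Pool.Agent.N201.BT.map_systems hT hh hhb hp.good
  · intro X _ μ _ T h p W hT hh hhb hp hWm hWb
    exact Pool.Agent.N201.BT.map_same hT hh hhb hp.good hWm hWb
  · intro X _ μ _ T h p k S e f hT hh hhb hp hS hf hfb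
    choose C hC using hfb
    have hWm : ∀ n, AEStronglyMeasurable (fun x => ∏ i, f i ((S i)^[e i n] x)) μ := fun n =>
      Finset.aestronglyMeasurable_fun_prod _ fun i _ =>
        (hf i).comp_quasiMeasurePreserving ((hS i).iterate (e i n)).quasiMeasurePreserving
    have hWb : ∃ C' : ℝ, ∀ n, ∀ᵐ x ∂μ, ‖∏ i, f i ((S i)^[e i n] x)‖ ≤ C' := by
      refine ⟨∏ i, C i, fun n => ?_⟩
      have h1 : ∀ᵐ x ∂μ, ∀ i, ‖f i ((S i)^[e i n] x)‖ ≤ C i := by
        rw [ae_all_iff]
        exact fun i => ((hS i).iterate (e i n)).quasiMeasurePreserving.ae (hC i)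
      filter_upwards [h1] with x hx
      rw [norm_prod]
      exact prod_le_prod (fun i _ => norm_nonneg _) (fun i _ => hx i)
    have hmain := Pool.Agent.N201.BT.map_same hT hh hhb hp.good hWm hWb
    filter_upwards [hmain] with a ha ha0
    filter_upwards [ha ha0] with x hx
    have h1 : Tendsto (fun N : ℕ =>
          (1 / (N : ℂ)) * ∑ n ∈ Icc 1 N, (∏ i, f i ((S i)^[e i n] x)) * h (T^[⌊a * p n⌋₊] x) -
          (μ[h | MeasurableSpace.invariants T]) x *
            ((1 / (N : ℂ)) * ∑ n ∈ Icc 1 N, ∏ i, f i ((S i)^[e i n] x))) atTop (nhds 0) := by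
      refine hx.congr fun N => ?_
      rw [mul_left_comm, ← mul_sub]
      congr 1
      rw [mul_sum, ← sum_sub_distrib]
      refine sum_congr rfl fun n _ => ?_
      ring
    refine ⟨h1, fun L hL => ?_⟩
    have h2 := h1.add (hL.const_mul ((μ[h | MeasurableSpace.invariants T]) x))
    rw [zero_add] at h2
    refine h2.congr fun N => ?_
    ring

end Pool.Agent.Results.MP_9721b5_an.OneGenericFactor
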